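import Pool.Agent.Lib.H77TW.Main
import Pool.Agent.Lib.H8TW.Final2

/-!
# The excluded minor function of a disjoint union (MP_14fa4b_co, Q1)

`tw G`: treewidth, by tree decompositions over finite trees.
`IsMinor H G`: `H` is a minor of `G` (disjoint connected branch sets).
`MinorBound H k`: every finite graph without a minor isomorphic to `H` has treewidth at most `k`.
`f H`: the least `k` with `MinorBound H k`.

The proof (helper77) is a potential argument with partitions of the edge set into tokens of small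
boundary and small treewidth; it proves that a graph of treewidth `w` has a vertex set `D` with
`tw G[D] ≥ t` and `tw (G - D) ≥ w - s` as soon as `C t w ≤ s ^ 2`.
-/

set_option autoImplicit false

namespace Pool.Agent.Results.MP_14fa4b_co.LinearBound

open Pool.Agent.H8TW SimpleGraph

/-- the splitting theorem in the form used for the derivation -/
theorem split : Split 1120000 := by
  intro V _ _ G t w s ht hw hw' hC hs
  have hw1 : 1 ≤ w := by
    by_contra h
    have : w = 0 := by omega
    subst this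
    exact hw' hw
  have hCt : 1120000 * t ≤ s := by
    by_contra hlt
    push Not at hlt
    have h1 : s * s ≤ s * w := Nat.mul_le_mul_left _ hs
    have h2 : s * w < 1120000 * t * w := Nat.mul_lt_mul_of_pos_right hlt hw1
    have h3 : s ^ 2 = s * s := sq s
    omega
  obtain ⟨D, hD₁, hD₂⟩ := H77TW.split3 (t := 2 * t) (s := s / 3) (by omega) hw hw' (by omega) (by
    have h4 : s ≤ 4 * (s / 3) := by omega
    have h5 : s ^ 2 ≤ (4 * (s / 3)) ^ 2 := Nat.pow_le_pow_left h4 2
    have h6 : (4 * (s / 3)) ^ 2 = 16 * (s / 3) ^ 2 := by ring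
    have h7 : 16 * (35000 * (2 * t) * w) = 1120000 * t * w := by ring
    omega)
  exact ⟨D, fun h => hD₁ (h.mono (by omega)), fun h => hD₂ (h.mono (by omega))⟩

/-- an edgeless graph has treewidth `0` -/
theorem tw_edgeless {V : Type} [Fintype V] (G : SimpleGraph V) (h : ∀ x y, ¬ G.Adj x y) :
    tw G ≤ 0 := by
  classical
  rw [tw_le_iff_TW]
  have key : ∀ D : Finset V, H66TW.TW G (0 + 1) D := by
    intro D
    induction D using Finset.induction_on with
    | empty => exact H66TW.TW.empty _
    | insert x D hx ih =>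
      rw [Finset.insert_eq]
      exact H66TW.TW.union (H66TW.TW.of_card (by simp)) ih (fun u _ v _ => h u v)
        (Finset.disjoint_singleton_left.mpr hx)
  exact key _

theorem minorBound_edge : MinorBound (⊤ : SimpleGraph (Fin 2)) 0 := by
  intro V _ G hG
  apply tw_edgeless
  intro x y hxy
  apply hG
  have conn : ∀ (S : Set V) (z : V), S = {z} → (G.induce S).Connected := by
    rintro S z rfl
    have : Nonempty ({z} : Set V) := ⟨⟨z, rfl⟩⟩
    refine (connected_iff _).mpr ⟨?_, this⟩
    intro a b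
    have : a = b := Subtype.ext (a.2.trans b.2.symm)
    rw [this]
  refine ⟨fun i => if i = 0 then {x} else {y}, ?_, ?_, ?_⟩
  · intro i
    by_cases hi : i = 0
    · exact conn _ x (if_pos hi)
    · exact conn _ y (if_neg hi)
  · intro i j hij
    fin_cases i <;> fin_cases j
    · exact absurd rfl hij
    · simpa using hxy.ne
    · simpa using hxy.ne'
    · exact absurd rfl hij
  · intro i j hij
    fin_cases i <;> fin_cases j
    · exact absurd hij (by simp)
    · exact ⟨x, by simp, y, by simp, hxy⟩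
    · exact ⟨y, by simp, x, by simp, hxy.symm⟩
    · exact absurd hij (by simp)

theorem f_edge : f (⊤ : SimpleGraph (Fin 2)) = 0 :=
  Nat.le_zero.mp (Nat.sInf_le minorBound_edge)

theorem two_edges_not_zero :
    ¬ MinorBound ((⊤ : SimpleGraph (Fin 2)) ⊕g (⊤ : SimpleGraph (Fin 2))) 0 := by
  classical
  intro h
  have h1 := h (Fin 3) (⊤ : SimpleGraph (Fin 3)) (by
    rintro ⟨B, hB1, hB2, _⟩
    have hne : ∀ w, ∃ x, x ∈ B w := by
      intro w
      obtain ⟨x⟩ := (hB1 w).nonempty
      exact ⟨x.1, x.2⟩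
    choose g hg using hne
    have hinj : Function.Injective g := by
      intro w w' hww
      by_contra hne
      exact Set.disjoint_left.mp (hB2 w w' hne) (hg w) (hww ▸ hg w')
    have := Fintype.card_le_of_injective g hinj
    simp at this)
  rw [tw_le_iff_TW] at h1
  obtain ⟨β, hβ⟩ := h1
  have := hβ.clique_le 3 (fun i => {i}) (by
    intro i
    exact H66TW.conn_singleton i) (by
    intro i j hij
    exact Finset.disjoint_singleton.mpr hij) (by
    intro i j hij
    exact ⟨i, by simp, j, by simp, by simpa using hij⟩) (by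
    intro i
    exact Finset.subset_univ _)
  omega

/-- **Q1.** There is an absolute constant `c` such that for all `H₁`, `H₂` for which `f` is finite,
`f` is finite at the disjoint union `H`, `f H ≤ c (f H₁ + f H₂ + 1)`, and
`f H ≤ c (f H₁ + f H₂)` unless `f H₁ = f H₂ = 0`; this last exception is needed, by
`H₁ = H₂ = K₂`. -/
theorem result :
    (∃ c : ℕ, ∀ (W₁ W₂ : Type) (H₁ : SimpleGraph W₁) (H₂ : SimpleGraph W₂),
      (∃ k, MinorBound H₁ k) → (∃ k, MinorBound H₂ k) →
      (∃ k, MinorBound (H₁ ⊕g H₂) k) ∧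
      f (H₁ ⊕g H₂) ≤ c * (f H₁ + f H₂ + 1) ∧
      (0 < f H₁ + f H₂ → f (H₁ ⊕g H₂) ≤ c * (f H₁ + f H₂))) ∧
    (f (⊤ : SimpleGraph (Fin 2)) = 0 ∧
      0 < f ((⊤ : SimpleGraph (Fin 2)) ⊕g (⊤ : SimpleGraph (Fin 2)))) := by
  have hlin : ∀ (W₁ W₂ : Type) (H₁ : SimpleGraph W₁) (H₂ : SimpleGraph W₂),
      (∃ k, MinorBound H₁ k) → (∃ k, MinorBound H₂ k) →
      (∃ k, MinorBound (H₁ ⊕g H₂) k) ∧
      f (H₁ ⊕g H₂) ≤ (14 * 1120000) * (f H₁ + f H₂ + 1) ∧
      (0 < f H₁ + f H₂ → f (H₁ ⊕g H₂) ≤ (14 * 1120000) * (f H₁ + f H₂)) := by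
    intro W₁ W₂ H₁ H₂ h₁ h₂
    refine ⟨(f_sum_sqrt split (by norm_num) h₁ h₂).1, ?_, ?_⟩
    · have := f_sum_linear split (by norm_num) h₁ h₂
      omega
    · intro hpos
      exact f_sum_linear' split (by norm_num) h₁ h₂ hpos
  refine ⟨⟨_, hlin⟩, f_edge, ?_⟩
  have hfin : ∃ k, MinorBound (⊤ : SimpleGraph (Fin 2)) k := ⟨0, minorBound_edge⟩
  have hfin2 := (hlin _ _ _ _ hfin hfin).1
  rw [Nat.pos_iff_ne_zero]
  intro h0
  have := MinorBound.f hfin2
  rw [h0] at this
  exact two_edges_not_zero this

end Pool.Agent.Results.MP_14fa4b_co.LinearBound
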